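import Pool.Agent.Results.MP_0e7155_gt.SmallSeparator

/-!
# MP_0e7155_gt : infinitely many disjoint separators

Let `X` be a connected separable metric space in which any two connected sets have a connected
intersection, let `C` be a set of non-cut points of `X`, and let `S ⊆ C` be such that `X \ S` is not
connected. Then `S` contains infinitely many pairwise disjoint closed subsets of `X`, each with fewer
than continuum many points, each of which separates `X`. In particular the question has a positive
answer for every `C` in which any two closed sets separating `X` meet.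
-/

set_option autoImplicit false

open Set Topology Cardinal

universe u

namespace Pool.Agent.Results.MP_0e7155_gt.DisjointSeparators

/-- A connected subset of a metric space with fewer than continuum many points has at most one
point. -/
lemma subsingleton_of_small {X : Type u} [MetricSpace X] {F : Set X} (hF : IsPreconnected F)
    (hlt : #F < 𝔠) : F.Subsingleton := by
  intro x hx y hy
  by_contra hne
  have hd : 0 < dist x y := dist_pos.2 hne
  have himg : IsPreconnected ((fun z => dist x z) '' F) :=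
    hF.image _ (continuous_const.dist continuous_id).continuousOn
  have hsub : Icc (0 : ℝ) (dist x y) ⊆ (fun z => dist x z) '' F := by
    apply himg.Icc_subset
    · exact ⟨x, hx, dist_self x⟩
    · exact ⟨y, hy, rfl⟩
  have h1 : 𝔠 ≤ #((fun z => dist x z) '' F) := by
    rw [← Cardinal.mk_Icc_real hd]
    exact Cardinal.mk_le_mk_of_subset hsub
  have h2 : Cardinal.lift.{u} #((fun z => dist x z) '' F) ≤ Cardinal.lift.{0} #F :=
    Cardinal.mk_image_le_lift
  have h3 : (𝔠 : Cardinal.{u}) ≤ #F := by
    have h4 : Cardinal.lift.{u} (𝔠 : Cardinal.{0}) ≤ Cardinal.lift.{u} #((fun z => dist x z) '' F) :=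
      Cardinal.lift_le.2 h1
    have h5 := h4.trans h2
    simpa using h5
  exact absurd h3 (not_le.2 hlt)

/-- One of the two sides splits, and the boundary splits with it. -/
lemma side {X : Type u} [MetricSpace X] {U F : Set X} (hU : IsOpen U) (hFU : F ∩ U = ∅)
    (hcl : closure U = U ∪ F) (hFcl : IsClosed F)
    (hdis : ¬ IsPreconnected (closure U)) :
    ∃ F₁ F₂ : Set X, F₁ ⊆ F ∧ F₂ ⊆ F ∧ IsClosed F₁ ∧ IsClosed F₂ ∧ Disjoint F₁ F₂ ∧
      ¬ IsPreconnected (F₁ᶜ : Set X) ∧ ¬ IsPreconnected (F₂ᶜ : Set X) := by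
  rw [isPreconnected_closed_iff] at hdis
  push Not at hdis
  obtain ⟨A', B', hA', hB', hsub, hA0, hB0, hAB⟩ := hdis
  -- the two closed pieces
  set A : Set X := closure U ∩ A' with hA
  set B : Set X := closure U ∩ B' with hB
  have hAcl : IsClosed A := isClosed_closure.inter hA'
  have hBcl : IsClosed B := isClosed_closure.inter hB'
  have hdisj : Disjoint A B := by
    rw [Set.disjoint_left]
    rintro x ⟨h1, h2⟩ ⟨-, h3⟩
    have : x ∈ closure U ∩ (A' ∩ B') := ⟨h1, h2, h3⟩
    rw [hAB] at this
    exact this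
  have hunion : closure U = A ∪ B := by
    apply Subset.antisymm
    · intro x hx
      rcases hsub hx with h | h
      · exact Or.inl ⟨hx, h⟩
      · exact Or.inr ⟨hx, h⟩
    · rintro x (h | h)
      · exact h.1
      · exact h.1
  have main : ∀ A B : Set X, IsClosed A → IsClosed B → Disjoint A B → closure U = A ∪ B →
      A.Nonempty → B.Nonempty → ¬ IsPreconnected ((F ∩ A)ᶜ : Set X) := by
    intro A B hAcl hBcl hdisj hunion hA0 hB0
    have hAU : A \ F = U \ B := by
      ext x
      constructor
      · rintro ⟨h1, h2⟩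
        have h3 : x ∈ closure U := by rw [hunion]; exact Or.inl h1
        rw [hcl] at h3
        rcases h3 with h3 | h3
        · exact ⟨h3, fun h => Set.disjoint_left.1 hdisj h1 h⟩
        · exact absurd h3 h2
      · rintro ⟨h1, h2⟩
        have h3 : x ∈ closure U := subset_closure h1
        rw [hunion] at h3
        rcases h3 with h3 | h3
        · refine ⟨h3, fun h => ?_⟩
          have : x ∈ F ∩ U := ⟨h, h1⟩
          rw [hFU] at this
          exact this
        · exact absurd h3 h2
    have hopen : IsOpen (A \ F) := by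
      rw [hAU]
      exact hU.sdiff hBcl
    have hne1 : (A \ F).Nonempty := by
      by_contra hemp
      rw [not_nonempty_iff_eq_empty, hAU, Set.sdiff_eq_empty] at hemp
      have h1 : closure U ⊆ B := closure_minimal hemp hBcl
      obtain ⟨a, ha⟩ := hA0
      have h2 : a ∈ closure U := by rw [hunion]; exact Or.inl ha
      exact Set.disjoint_left.1 hdisj ha (h1 h2)
    have hne2 : (Aᶜ : Set X).Nonempty := by
      obtain ⟨b, hb⟩ := hB0
      exact ⟨b, fun h => Set.disjoint_left.1 hdisj h hb⟩
    intro hpre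
    refine CompactClosedSubsets.not_preconnected_of_open hopen hAcl.isOpen_compl ?_ hne1 hne2 ?_
    · rw [Set.disjoint_left]
      exact fun x hx h => h hx.1
    · have : (A \ F) ∪ Aᶜ = (F ∩ A)ᶜ := by
        ext x
        simp only [mem_union, mem_sdiff, mem_compl_iff, mem_inter_iff]
        tauto
      rw [this]
      exact hpre
  have hA0' : A.Nonempty := hA0
  have hB0' : B.Nonempty := hB0
  refine ⟨F ∩ A, F ∩ B, inter_subset_left, inter_subset_left, hFcl.inter hAcl, hFcl.inter hBcl,
    ?_, main A B hAcl hBcl hdisj hunion hA0' hB0', ?_⟩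
  · exact hdisj.mono inter_subset_right inter_subset_right
  · exact main B A hBcl hAcl hdisj.symm (by rw [hunion, union_comm]) hB0' hA0'

/-- Every separating set of non-cut points contains two disjoint closed separating sets with fewer
than continuum many points. -/
lemma split (X : Type u) [MetricSpace X] [TopologicalSpace.SeparableSpace X] [ConnectedSpace X]
    (hCIP : ∀ A B : Set X, IsPreconnected A → IsPreconnected B → IsPreconnected (A ∩ B))
    (S : Set X) (hS : ∀ c ∈ S, IsPreconnected ({c}ᶜ : Set X))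
    (hdis : ¬ IsPreconnected (Sᶜ : Set X)) :
    ∃ F₁ F₂ : Set X, F₁ ⊆ S ∧ F₂ ⊆ S ∧ IsClosed F₁ ∧ IsClosed F₂ ∧ Disjoint F₁ F₂ ∧
      #F₁ < 𝔠 ∧ #F₂ < 𝔠 ∧ ¬ IsPreconnected (F₁ᶜ : Set X) ∧ ¬ IsPreconnected (F₂ᶜ : Set X) := by
  classical
  obtain ⟨F, hFS, hFcl, hFlt, hFdis⟩ : ∃ F : Set X, F ⊆ S ∧ IsClosed F ∧ #F < 𝔠 ∧
      ¬ IsPreconnected (Fᶜ : Set X) := by
    by_contra hno
    push Not at hno
    exact hdis (SmallSeparator.small_separator X hCIP S fun F h1 h2 h3 => hno F h1 h2 h3)
  obtain ⟨U, V, hU, hV, hUV, hU0, hV0, hsub⟩ := CompactClosedSubsets.exists_sep hFdis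
  set V1 : Set X := (closure U)ᶜ with hV1
  set U1 : Set X := (closure V1)ᶜ with hU1
  have hV1o : IsOpen V1 := isClosed_closure.isOpen_compl
  have hU1o : IsOpen U1 := isClosed_closure.isOpen_compl
  have hVV1 : V ⊆ V1 := by
    intro x hx h
    exact Set.disjoint_left.1 (hUV.closure_left hV) h hx
  have hUU1 : U ⊆ U1 := by
    intro x hx h
    have hd : Disjoint V1 U := by
      rw [Set.disjoint_left]
      exact fun y hy hyU => hy (subset_closure hyU)
    exact Set.disjoint_left.1 (hd.closure_left hU) h hx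
  have hd1 : Disjoint U1 V1 := by
    rw [Set.disjoint_left]
    exact fun y hy hyV => hy (subset_closure hyV)
  have hU1ne : U1.Nonempty := hU0.mono hUU1
  have hV1ne : V1.Nonempty := hV0.mono hVV1
  set F1 : Set X := (U1 ∪ V1)ᶜ with hF1
  have hF1F : F1 ⊆ F := by
    intro x hx
    apply hsub
    intro h
    exact hx (union_subset_union hUU1 hVV1 h)
  have hF1cl : IsClosed F1 := (hU1o.union hV1o).isClosed_compl
  have hF1lt : #F1 < 𝔠 := (Cardinal.mk_le_mk_of_subset hF1F).trans_lt hFlt
  have hclU : closure U1 = U1 ∪ F1 := by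
    apply Subset.antisymm
    · intro x hx
      have hxV : x ∉ V1 := fun h => Set.disjoint_left.1 (hd1.closure_left hV1o) hx h
      by_cases hxU : x ∈ U1
      · exact Or.inl hxU
      · exact Or.inr (fun h => h.elim hxU hxV)
    · rintro x (h | h)
      · exact subset_closure h
      · have : x ∈ closure U := by
          by_contra h'
          exact h (Or.inr h')
        exact closure_mono hUU1 this
  have hclV : closure V1 = V1 ∪ F1 := by
    apply Subset.antisymm
    · intro x hx
      by_cases hxV : x ∈ V1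
      · exact Or.inl hxV
      · refine Or.inr (fun h => h.elim (fun h' => h' hx) hxV)
    · rintro x (h | h)
      · exact subset_closure h
      · by_contra h'
        exact h (Or.inl h')
  have hinter : closure U1 ∩ closure V1 = F1 := by
    rw [hclU, hclV]
    ext x
    constructor
    · rintro ⟨h1 | h1, h2 | h2⟩
      · exact absurd h2 (Set.disjoint_left.1 hd1 h1)
      · exact h2
      · exact h1
      · exact h1
    · exact fun h => ⟨Or.inr h, Or.inr h⟩
  have hFU : F1 ∩ U1 = ∅ := by
    ext x
    simp only [mem_inter_iff, mem_empty_iff_false, iff_false, not_and]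
    exact fun h h' => h (Or.inl h')
  have hFV : F1 ∩ V1 = ∅ := by
    ext x
    simp only [mem_inter_iff, mem_empty_iff_false, iff_false, not_and]
    exact fun h h' => h (Or.inr h')
  have hone : ¬ IsPreconnected (closure U1) ∨ ¬ IsPreconnected (closure V1) := by
    by_contra hcon
    push Not at hcon
    have h1 : IsPreconnected F1 := by
      rw [← hinter]
      exact hCIP _ _ hcon.1 hcon.2
    have h2 := subsingleton_of_small h1 hF1lt
    rcases F1.eq_empty_or_nonempty with hemp | ⟨p, hp⟩
    · have huniv : U1 ∪ V1 = Set.univ := by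
        rw [← compl_compl (U1 ∪ V1), ← hF1, hemp, compl_empty]
      refine CompactClosedSubsets.not_preconnected_of_open hU1o hV1o hd1 hU1ne hV1ne ?_
      rw [huniv]
      exact isPreconnected_univ
    · have hFp : F1 = {p} := h2.eq_singleton_of_mem hp
      have hUVp : U1 ∪ V1 = ({p} : Set X)ᶜ := by
        rw [← hFp, hF1, compl_compl]
      refine CompactClosedSubsets.not_preconnected_of_open hU1o hV1o hd1 hU1ne hV1ne ?_
      rw [hUVp]
      exact hS p (hFS (hF1F hp))
  have fin : ∀ W : Set X, IsOpen W → F1 ∩ W = ∅ → closure W = W ∪ F1 →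
      ¬ IsPreconnected (closure W) →
      ∃ F₁ F₂ : Set X, F₁ ⊆ S ∧ F₂ ⊆ S ∧ IsClosed F₁ ∧ IsClosed F₂ ∧ Disjoint F₁ F₂ ∧
      #F₁ < 𝔠 ∧ #F₂ < 𝔠 ∧ ¬ IsPreconnected (F₁ᶜ : Set X) ∧ ¬ IsPreconnected (F₂ᶜ : Set X) := by
    intro W h1 h2 h3 h4
    obtain ⟨F₁, F₂, g1, g2, g3, g4, g5, g6, g7⟩ := side h1 h2 h3 hF1cl h4
    exact ⟨F₁, F₂, g1.trans (hF1F.trans hFS), g2.trans (hF1F.trans hFS), g3, g4, g5,
      (Cardinal.mk_le_mk_of_subset g1).trans_lt hF1lt,
      (Cardinal.mk_le_mk_of_subset g2).trans_lt hF1lt, g6, g7⟩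
  rcases hone with h | h
  · exact fin U1 hU1o hFU hclU h
  · exact fin V1 hV1o hFV hclV h

/-- Let `X` be a connected separable metric space with the connected intersection property, `C` a set
of non-cut points of `X` and `S ⊆ C` such that `X \ S` is not connected. Then there are infinitely
many pairwise disjoint closed sets `F n ⊆ S`, each with fewer than continuum many points, such that
every `X \ F n` is not connected. -/
theorem result (X : Type u) [MetricSpace X] [TopologicalSpace.SeparableSpace X] [ConnectedSpace X]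
    (hCIP : ∀ A B : Set X, IsPreconnected A → IsPreconnected B → IsPreconnected (A ∩ B))
    (C : Set X) (hC : ∀ c ∈ C, IsPreconnected ({c}ᶜ : Set X))
    (S : Set X) (hSC : S ⊆ C) (hdis : ¬ IsPreconnected (Sᶜ : Set X)) :
    ∃ F : ℕ → Set X, Pairwise (fun i j => Disjoint (F i) (F j)) ∧
      ∀ n, F n ⊆ S ∧ IsClosed (F n) ∧ #(F n) < 𝔠 ∧ ¬ IsPreconnected ((F n)ᶜ : Set X) := by
  classical
  let T := {R : Set X // R ⊆ C ∧ ¬ IsPreconnected (Rᶜ : Set X)}
  have step : ∀ R : T, ∃ P : Set X × T, P.1 ⊆ R.1 ∧ P.2.1 ⊆ R.1 ∧ Disjoint P.1 P.2.1 ∧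
      IsClosed P.1 ∧ #P.1 < 𝔠 ∧ ¬ IsPreconnected (P.1ᶜ : Set X) := by
    rintro ⟨R, hR1, hR2⟩
    obtain ⟨F₁, F₂, h1, h2, h3, -, h5, h6, -, h8, h9⟩ :=
      split X hCIP R (fun c hc => hC c (hR1 hc)) hR2
    exact ⟨(F₁, ⟨F₂, h2.trans hR1, h9⟩), h1, h2, h5, h3, h6, h8⟩
  choose g hg using step
  let R : ℕ → T := fun n => Nat.rec ⟨S, hSC, hdis⟩ (fun _ r => (g r).2) n
  have hR : ∀ n, R (n + 1) = (g (R n)).2 := fun n => rfl
  have hanti : ∀ m n, m ≤ n → (R n).1 ⊆ (R m).1 := by
    intro m n hmn
    induction n, hmn using Nat.le_induction with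
    | base => exact subset_rfl
    | succ n _ ih =>
      rw [hR n]
      exact (hg (R n)).2.1.trans ih
  have hlt : ∀ m n, m < n → Disjoint (g (R m)).1 (g (R n)).1 := by
    intro m n hmn
    have h1 : (g (R n)).1 ⊆ (R (m + 1)).1 := (hg (R n)).1.trans (hanti (m + 1) n hmn)
    rw [hR m] at h1
    exact (hg (R m)).2.2.1.mono_right h1
  refine ⟨fun n => (g (R n)).1, ?_, fun n => ⟨?_, (hg (R n)).2.2.2.1, (hg (R n)).2.2.2.2.1,
    (hg (R n)).2.2.2.2.2⟩⟩
  · intro i j hij
    rcases lt_or_gt_of_ne hij with h | h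
    · exact hlt i j h
    · exact (hlt j i h).symm
  · exact (hg (R n)).1.trans (hanti 0 n (Nat.zero_le n))

end Pool.Agent.Results.MP_0e7155_gt.DisjointSeparators
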