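import Pool.Agent.Results.MP_0e7155_gt.ClosureOfConnected

/-!
# MP_0e7155_gt : a complement with an open component is connected

Let `X` be a connected metric space in which any two connected sets have a connected intersection and
let `C` be a set of non-cut points of `X` that is closed or has empty interior. If some component of
`X \ C` is open in `X \ C` (for instance if `X \ C` has finitely many components, or is locally
connected), then `X \ C` is connected.
-/

set_option autoImplicit false

open Set Topology

universe u

namespace Pool.Agent.Results.MP_0e7155_gt.OpenComponent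

/-- Let `X` be a connected metric space with the connected intersection property and `C` a set of
non-cut points of `X` which is closed or has empty interior. If some connected component of `X \ C`
is open in `X \ C`, then `X \ C` is connected. -/
theorem result (X : Type u) [MetricSpace X] [ConnectedSpace X]
    (hCIP : ∀ A B : Set X, IsPreconnected A → IsPreconnected B → IsPreconnected (A ∩ B))
    (C : Set X) (hC : ∀ c ∈ C, IsPreconnected ({c}ᶜ : Set X))
    (hint : IsClosed C ∨ interior C = ∅)
    (x : X) (hx : x ∉ C) (O : Set X) (hO : IsOpen O)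
    (hxO : connectedComponentIn Cᶜ x = O ∩ Cᶜ) :
    IsPreconnected (Cᶜ : Set X) := by
  set D : Set X := connectedComponentIn Cᶜ x with hDdef
  have hD : IsPreconnected D := isPreconnected_connectedComponentIn
  have hDC : D ⊆ Cᶜ := connectedComponentIn_subset _ _
  have hxD : x ∈ D := mem_connectedComponentIn hx
  -- `D` is closed in `X \ C`
  have hDcl : closure D ∩ Cᶜ ⊆ D := by
    have h1 : IsPreconnected (closure D ∩ Cᶜ) :=
      hD.subset_closure (fun y hy => ⟨subset_closure hy, hDC hy⟩) inter_subset_left
    exact h1.subset_connectedComponentIn ⟨subset_closure hxD, hx⟩ inter_subset_right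
  have hdisj : Disjoint D C := by
    rw [Set.disjoint_left]
    exact fun y hy hyC => hDC hy hyC
  have key : IsPreconnected ((C ∩ closure D)ᶜ : Set X) :=
    ClosureOfConnected.result X hCIP C hC D hD hdisj
  by_contra hcon
  -- the complement of `D` in `X \ C`
  have hE : ∃ y, y ∉ C ∧ y ∉ D := by
    by_contra hno
    push Not at hno
    apply hcon
    have : (Cᶜ : Set X) = D := Subset.antisymm (fun y hy => hno y hy) hDC
    rw [this]
    exact hD
  obtain ⟨y, hyC, hyD⟩ := hE
  have hycl : y ∉ closure D := fun h => hyD (hDcl ⟨h, hyC⟩)
  -- an open set `U` with `U \ (C ∩ closure D) = D`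
  have hopen : ∃ U : Set X, IsOpen U ∧ D ⊆ U ∧ U ∩ (C ∩ closure D)ᶜ ⊆ D := by
    rcases hint with hcl | hem
    · refine ⟨O ∩ Cᶜ, hO.inter hcl.isOpen_compl, by rw [← hxO], ?_⟩
      rintro z ⟨hz, -⟩
      rw [hxO]
      exact hz
    · refine ⟨O \ closure (Cᶜ \ D), hO.sdiff isClosed_closure, ?_, ?_⟩
      · intro z hz
        have hzO : z ∈ O := by
          have h := hz
          rw [hxO] at h
          exact h.1
        refine ⟨hzO, fun h => ?_⟩
        obtain ⟨w, hwO, hw⟩ := mem_closure_iff.1 h O hO hzO
        have : w ∈ D := by
          rw [hxO]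
          exact ⟨hwO, hw.1⟩
        exact hw.2 this
      · rintro z ⟨⟨hzO, hzE⟩, hz⟩
        by_cases hzC : z ∈ C
        · exfalso
          have hzcl : z ∉ closure D := fun h => hz ⟨hzC, h⟩
          have hdense : z ∈ closure Cᶜ := by
            rw [closure_compl, hem, compl_empty]
            trivial
          have hsplit : (Cᶜ : Set X) = D ∪ (Cᶜ \ D) := by
            rw [union_sdiff_self, union_eq_self_of_subset_left hDC]
          rw [hsplit, closure_union] at hdense
          exact hdense.elim hzcl hzE
        · rw [hxO]
          exact ⟨hzO, hzC⟩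
  obtain ⟨U, hU, hDU, hUsub⟩ := hopen
  -- `U` and the complement of `closure D` disconnect
  have hcov : ((C ∩ closure D)ᶜ : Set X) ⊆ U ∪ (closure D)ᶜ := by
    intro z hz
    by_cases hzcl : z ∈ closure D
    · left
      have hzC : z ∉ C := fun h => hz ⟨h, hzcl⟩
      exact hDU (hDcl ⟨hzcl, hzC⟩)
    · exact Or.inr hzcl
  obtain ⟨z, hz1, hz2, hz3⟩ := key U (closure D)ᶜ hU isClosed_closure.isOpen_compl hcov
    ⟨x, fun h => hx h.1, hDU hxD⟩ ⟨y, fun h => hyC h.1, hycl⟩
  exact hz3 (subset_closure (hUsub ⟨hz2, hz1⟩))

end Pool.Agent.Results.MP_0e7155_gt.OpenComponent
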